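import Pool.Agent.R393.UD.Lim
import Pool.Agent.R393.UO.Red
import Pool.Agent.R393.SC.Conv

/-!
Rational curves of bounded degree control the entire curves of bounded complexity.
-/

set_option autoImplicit false

namespace Pool.Agent.R393.UD

open MvPolynomial Pool.Agent.Y377.ST Pool.Agent.Y377.IL Pool.Agent.Y377.EL Pool.Agent.H533R3.SL
open Pool.Agent.R393.SC Pool.Agent.R393.UO
open Pool.Agent.R849.PR (RatIn)

variable {s r e n : ℕ} {ι κ : Type}

/-- `p` is a nonconstant rational curve in `X : F = 0`, given by polynomials. -/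
def RatCurve (F : ι → MvPolynomial (Fin (n + 1)) ℂ) (p : Fin (n + 1) → Polynomial ℂ) : Prop :=
  (∀ i, aeval p (F i) = 0) ∧ ∃ t s i j, (p i).eval t * (p j).eval s ≠ (p j).eval t * (p i).eval s

/-- The nonconstant rational curves in `X : F = 0` given by polynomials of degree at most `D` lie in
`Z : G = 0`. -/
def RatUpTo (D : ℕ) (F : ι → MvPolynomial (Fin (n + 1)) ℂ) (G : κ → MvPolynomial (Fin (n + 1)) ℂ) :
    Prop :=
  ∀ p : Fin (n + 1) → Polynomial ℂ, (∀ i, (p i).natDegree ≤ D) → RatCurve F p →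
    ∀ l, aeval p (G l) = 0

/-- The nonconstant entire curves in `X : F = 0` of complexity `(s, r, e)` (see `CurveVec`) lie in
`Z : G = 0`. -/
def EntUpTo (s r e : ℕ) (F : ι → MvPolynomial (Fin (n + 1)) ℂ)
    (G : κ → MvPolynomial (Fin (n + 1)) ℂ) : Prop :=
  ∀ x : ℂ → Fin (n + 1) → ℂ, CurveVec s r e x → (∀ z i, aeval (x z) (F i) = 0) →
    (∃ z w i j, x z i * x w j ≠ x z j * x w i) → ∀ z l, aeval (x z) (G l) = 0

theorem nc_of {K : Type} [Field K] [Infinite K] {p : Fin (n + 1) → Polynomial K} {i j : Fin (n + 1)}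
    (h : p i * Polynomial.C ((p j).eval 1) ≠ p j * Polynomial.C ((p i).eval 1)) :
    ∃ t s i j, (p i).eval t * (p j).eval s ≠ (p j).eval t * (p i).eval s := by
  by_contra h7
  push Not at h7
  apply h
  apply Polynomial.funext
  intro t
  rw [Polynomial.eval_mul, Polynomial.eval_mul, Polynomial.eval_C, Polynomial.eval_C]
  exact h7 t 1 i j

theorem coreD [Fintype ι] [Fintype κ] (dF : ι → ℕ) (dG : κ → ℕ) (s r e : ℕ) :
    ∃ D : ℕ, ∀ (F : ι → MvPolynomial (Fin (n + 1)) ℂ) (G : κ → MvPolynomial (Fin (n + 1)) ℂ),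
      (∀ i, (F i).IsHomogeneous (dF i)) → (∀ l, (G l).IsHomogeneous (dG l)) →
      RatUpTo D F G → EntUpTo s r e F G := by
  classical
  by_contra hcon
  push Not at hcon
  choose F G hF hG hrat hent using hcon
  simp only [EntUpTo, not_forall] at hent
  choose x hx hX hnc z0 l0 hne using hent
  obtain ⟨Θ, hΘ⟩ := Pool.Agent.Y455.ST.t_THETA
  let Fl : ι → MvPolynomial (Fin (n + 1)) (ℕ → ℂ) := fun i => tld (dF i) fun T => F T i
  let Gl : κ → MvPolynomial (Fin (n + 1)) (ℕ → ℂ) := fun l => tld (dG l) fun T => G T l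
  have hFlm : ∀ i T, map (Pi.evalRingHom (fun _ : ℕ => ℂ) T) (Fl i) = F T i := fun i T =>
    tld_map (F := fun T => F T i) (fun T => hF T i) T
  have hGlm : ∀ l T, map (Pi.evalRingHom (fun _ : ℕ => ℂ) T) (Gl l) = G T l := fun l T =>
    tld_map (F := fun T => G T l) (fun T => hG T l) T
  obtain ⟨M, j1, j2, q, l₀, h1, h2, h3⟩ := limE (s := s) (r := r) (e := e)
    (RingHom.id (ℕ → ℂ)) Fl Gl (fun i => ⟨dF i, tld_hom _ _⟩) (fun l => ⟨dG l, tld_hom _ _⟩) x hx
    (fun T z i => by rw [RingHom.comp_id, hFlm]; exact hX T z i) hnc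
    (fun T => ⟨z0 T, l0 T, by rw [RingHom.comp_id, hGlm]; exact hne T⟩) Θ hΘ
  rw [RingHom.comp_id] at h1 h2
  obtain ⟨D, hD⟩ := transfer2 (κ := kap Θ) hΘ (thK Θ) thK_surj (kap Θ).subtype
    (fun a => rfl) Fl (Gl l₀) (fun i => ⟨dF i, tld_hom _ _⟩) ⟨dG l₀, tld_hom _ _⟩ q h1 h2 h3
  obtain ⟨T, p, hT, h4, h5, h6, i0, j0, h7⟩ := hD D
  apply h6
  rw [hGlm, ev_poly, hrat T p (fun i => (h4 i).trans hT) ⟨fun i => by rw [← hFlm]; exact h5 i,
    nc_of h7⟩ l₀, Polynomial.eval_zero]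

/-- the degree bound -/
noncomputable def BD (n d s r e : ℕ) : ℕ :=
  (coreD (n := n) (fun a : JJ n d => (a.1 : ℕ)) (fun a : JJ n d => (a.1 : ℕ)) s r e).choose

theorem BD_spec (n d s r e : ℕ) : ∀ (F G : JJ n d → MvPolynomial (Fin (n + 1)) ℂ),
    (∀ i, (F i).IsHomogeneous (i.1 : ℕ)) → (∀ l, (G l).IsHomogeneous (l.1 : ℕ)) →
      RatUpTo (BD n d s r e) F G → EntUpTo s r e F G :=
  (coreD (n := n) (fun a : JJ n d => (a.1 : ℕ)) (fun a : JJ n d => (a.1 : ℕ)) s r e).choose_spec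

/-- **Rational curves of bounded degree.** -/
theorem ent_of_rat {d : ℕ} (F : ι → MvPolynomial (Fin (n + 1)) ℂ)
    (G : κ → MvPolynomial (Fin (n + 1)) ℂ) (hF : ∀ i, ∃ a, a ≤ d ∧ (F i).IsHomogeneous a)
    (hG : ∀ l, ∃ a, a ≤ d ∧ (G l).IsHomogeneous a) (h : RatUpTo (BD n d s r e) F G) :
    EntUpTo s r e F G := by
  obtain ⟨f, f1, f2, f3⟩ := reduce F hF
  obtain ⟨g, g1, g2, g3⟩ := reduce G hG
  intro x hx hX hnc z l
  refine aeval_span g (x z) (fun a => ?_) (g3 l)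
  refine BD_spec n d s r e f g f1 g1 ?_ x hx (fun z a => aeval_span F (x z) (hX z) (f2 a)) hnc z a
  intro p hp hc b
  exact aeval_span G p (h p hp ⟨fun i => aeval_span f p hc.1 (f3 i), hc.2⟩) (g2 b)

theorem curveVec_poly' {n : ℕ} (q : Fin n → Polynomial ℂ) {e : ℕ} (he : ∀ i, (q i).natDegree ≤ e) :
    CurveVec 1 2 e (fun z i => (q i).eval z) := by
  refine ⟨fun _ z => !![1, z; 0, 1], fun _ z => !![1, -z; 0, 1], ⟨?_, ?_, ?_⟩, ?_⟩
  · intro l i j
    fin_cases i <;> fin_cases j <;> simp <;> fun_prop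
  · intro l z
    ext i j
    fin_cases i <;> fin_cases j <;> simp [Matrix.mul_apply, Fin.sum_univ_two]
  · intro l
    have h0 : ∀ b : ℂ, ∃ c : (Ix 1 2 → Fin (e + 1)) → ℂ, ∀ v, pev c v = b := fun b =>
      ⟨_, pev_const b⟩
    choose c hc using h0
    refine ⟨fun i j => c ((!![0, 1; 0, 0] : Matrix (Fin 2) (Fin 2) ℂ) i j), fun z i j => ?_⟩
    simp only [hc]
    fin_cases i <;> fin_cases j <;> simp [Fin.sum_univ_two]
    · exact hasDerivAt_const _ _
    · exact hasDerivAt_id _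
    · exact hasDerivAt_const _ _
    · exact hasDerivAt_const _ _
  · intro j
    obtain ⟨c, hc⟩ := pev_poly (ι := Ix 1 2) (0, true, 0, 1) (q j) (he j)
    refine ⟨c, fun z => ?_⟩
    rw [hc]
    simp [entries]

/-- The converse. -/
theorem rat_of_ent {e : ℕ} (F : ι → MvPolynomial (Fin (n + 1)) ℂ)
    (G : κ → MvPolynomial (Fin (n + 1)) ℂ) (h : EntUpTo 1 2 e F G) : RatUpTo e F G := by
  intro p hp hc l
  apply Polynomial.funext
  intro z
  rw [← ev_poly, Polynomial.eval_zero]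
  refine h (fun z i => (p i).eval z) (curveVec_poly' p hp) (fun z i => ?_) ?_ z l
  · rw [ev_poly, hc.1 i, Polynomial.eval_zero]
  · obtain ⟨t, u, i, j, h1⟩ := hc.2
    exact ⟨t, u, i, j, h1⟩

end Pool.Agent.R393.UD
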