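import Pool.Agent.R393.UD.Core

/-!
Families of projective varieties.
-/

set_option autoImplicit false

namespace Pool.Agent.R393.UD

open MvPolynomial Pool.Agent.Y377.ST Pool.Agent.Y377.IL Pool.Agent.Y377.EL Pool.Agent.H533R3.SL
open Pool.Agent.R393.SC Pool.Agent.R393.UO
open Pool.Agent.R849.PR (RatIn)

variable {s r e n : ℕ} {ι κ : Type}

theorem countable_of_ft (A : Type) [CommRing A] [Algebra.FiniteType ℤ A] : Countable A := by
  obtain ⟨m, f, hf⟩ := (Algebra.FiniteType.iff_quotient_mvPolynomial'').1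
    (inferInstance : Algebra.FiniteType ℤ A)
  have hc : Countable (MvPolynomial (Fin m) ℤ) := by
    rw [← Cardinal.mk_le_aleph0_iff]
    refine cardinalMk_le_max.trans ?_
    exact max_le (max_le (Cardinal.mk_le_aleph0_iff.2 inferInstance)
      (Cardinal.mk_le_aleph0_iff.2 inferInstance)) le_rfl
  exact hf.countable

/-- the countable case -/
theorem fam_countable {A : Type} [CommRing A] [IsDomain A] [Countable A] {B : Type} [CommRing B]
    [Finite κ] (j : A →+* B)
    (F : ι → MvPolynomial (Fin (n + 1)) A) (G : κ → MvPolynomial (Fin (n + 1)) A)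
    (hF : ∀ i, ∃ d, (F i).IsHomogeneous d) (hG : ∀ l, ∃ d, (G l).IsHomogeneous d)
    (hcon : ∀ a : A, a ≠ 0 → ∃ φ : B →+* ℂ, φ (j a) ≠ 0 ∧
      ¬ EntUpTo s r e (fun i => map (φ.comp j) (F i)) (fun l => map (φ.comp j) (G l))) :
    ∃ (τ : A →+* ℂ) (M : Type) (_ : Field M) (_ : Algebra ℂ M) (q : Fin (n + 1) → RatFunc M)
      (l₀ : κ), Function.Injective τ ∧
      (∀ i, aeval q (map τ (F i)) = 0) ∧ aeval q (map τ (G l₀)) ≠ 0 ∧
      ∃ i l, q l ≠ 0 ∧ ∀ c : M, q i / q l ≠ algebraMap M (RatFunc M) c := by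
  classical
  have : Fintype κ := Fintype.ofFinite κ
  have hne : Nonempty {a : A // a ≠ 0} := ⟨⟨1, one_ne_zero⟩⟩
  obtain ⟨en, hen⟩ := exists_surjective_nat {a : A // a ≠ 0}
  let Q : ℕ → A := fun i => ∏ j ∈ Finset.range (i + 1), (en j).1
  have hQ : ∀ i, Q i ≠ 0 := fun i => Finset.prod_ne_zero_iff.2 fun j _ => (en j).2
  choose φ hφ hent using fun i => hcon (Q i) (hQ i)
  simp only [EntUpTo, not_forall] at hent
  choose x hx hX hnc z0 l0 hGne using hent
  obtain ⟨Θ, hΘ⟩ := Pool.Agent.Y455.ST.t_THETA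
  let Φ : A →+* (ℕ → ℂ) := RingHom.pi fun T => (φ T).comp j
  have hcomp : ∀ T, (Pi.evalRingHom (fun _ : ℕ => ℂ) T).comp Φ = (φ T).comp j := fun T =>
    RingHom.ext fun a => rfl
  obtain ⟨M, j1, j2, q, l₀, h1, h2, h3⟩ := limE (s := s) (r := r) (e := e) Φ F G hF hG x hx
    (fun T z i => by rw [hcomp]; exact hX T z i) hnc
    (fun T => ⟨z0 T, l0 T, by rw [hcomp]; exact hGne T⟩) Θ hΘ
  refine ⟨Θ.comp Φ, M, j1, j2, q, l₀, ?_, h1, h2, h3⟩
  refine (injective_iff_map_eq_zero _).2 fun a ha => ?_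
  by_contra ha0
  obtain ⟨m, hm⟩ := hen ⟨a, ha0⟩
  obtain ⟨-, h4⟩ := theta_ne hΘ (fun (_ : Unit) T => φ T (j a)) m (fun T hT => ⟨(), by
    intro h5
    have h6 : (en m).1 ∣ Q T := Finset.dvd_prod_of_mem (fun j => (en j).1)
      (Finset.mem_range.2 (by omega))
    rw [hm] at h6
    obtain ⟨c, hc⟩ := h6
    apply hφ T
    rw [hc, map_mul, map_mul, h5, zero_mul]⟩)
  exact h4 ha

/-- rational curves over the fields of fractions -/
theorem comb {A0 A K0 K : Type} [CommRing A0] [IsDomain A0] [CommRing A] [IsDomain A] [Field K0]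
    [Field K] [Algebra A0 K0] [IsFractionRing A0 K0] [Algebra A K] [IsFractionRing A K]
    (j : A0 →+* A) (hj : Function.Injective j) (τ : A0 →+* ℂ) (hτ : Function.Injective τ)
    (F : ι → MvPolynomial (Fin (n + 1)) A0) (G : κ → MvPolynomial (Fin (n + 1)) A0)
    (h : RatIn (fun i => map (algebraMap A K) (map j (F i)))
      (fun l => map (algebraMap A K) (map j (G l)))) :
    RatIn (fun i => map τ (F i)) (fun l => map τ (G l)) := by
  have hinj : Function.Injective ((algebraMap A K).comp j) :=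
    (IsFractionRing.injective A K).comp hj
  obtain ⟨i0, hi0⟩ : ∃ i0 : K0 →+* K, i0.comp (algebraMap A0 K0) = (algebraMap A K).comp j :=
    ⟨IsFractionRing.lift hinj, RingHom.ext fun a => IsFractionRing.lift_algebraMap hinj a⟩
  obtain ⟨τ0, hτ0⟩ : ∃ τ0 : K0 →+* ℂ, τ0.comp (algebraMap A0 K0) = τ :=
    ⟨IsFractionRing.lift hτ, RingHom.ext fun a => IsFractionRing.lift_algebraMap hτ a⟩
  have h1 : ∀ P : MvPolynomial (Fin (n + 1)) A0,
      map i0 (map (algebraMap A0 K0) P) = map (algebraMap A K) (map j P) := by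
    intro P
    rw [map_map, map_map, hi0]
  have h2 : ∀ P : MvPolynomial (Fin (n + 1)) A0,
      map τ0 (map (algebraMap A0 K0) P) = map τ P := by
    intro P
    rw [map_map, hτ0]
  have h4 := ratIn_comp i0 τ0 (fun i => map (algebraMap A0 K0) (F i))
    (fun l => map (algebraMap A0 K0) (G l)) (by
      simp only [h1]
      exact h)
  simp only [h2] at h4
  exact h4

/-- **Families of projective varieties.** -/
theorem family {A : Type} [CommRing A] [IsDomain A] [CharZero A] [Finite ι] [Finite κ]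
    (F : ι → MvPolynomial (Fin (n + 1)) A) (G : κ → MvPolynomial (Fin (n + 1)) A)
    (hF : ∀ i, ∃ d, (F i).IsHomogeneous d) (hG : ∀ l, ∃ d, (G l).IsHomogeneous d)
    (h : RatIn (fun i => map (algebraMap A (FractionRing A)) (F i))
      (fun l => map (algebraMap A (FractionRing A)) (G l))) (s r e : ℕ) :
    ∃ a : A, a ≠ 0 ∧ ∀ φ : A →+* ℂ, φ a ≠ 0 →
      EntUpTo s r e (fun i => map φ (F i)) (fun l => map φ (G l)) := by
  classical
  have : Fintype κ := Fintype.ofFinite κ
  have : Fintype ι := Fintype.ofFinite ι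
  by_contra hcon
  push Not at hcon
  let S : Finset A := (Finset.univ.biUnion fun i => (F i).coeffs) ∪
    (Finset.univ.biUnion fun l => (G l).coeffs)
  let A0 : Subalgebra ℤ A := Algebra.adjoin ℤ (S : Set A)
  have hft : Algebra.FiniteType ℤ A0 :=
    (Subalgebra.fg_iff_finiteType _).1 (Subalgebra.fg_adjoin_finset S)
  have hc : Countable A0 := countable_of_ft A0
  let j : A0 →+* A := A0.val.toRingHom
  have hj : Function.Injective j := Subtype.val_injective
  have hlift : ∀ P : MvPolynomial (Fin (n + 1)) A, P.coeffs ⊆ S →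
      ∃ P0 : MvPolynomial (Fin (n + 1)) A0, map j P0 = P := by
    intro P hP
    have h1 : P ∈ Set.range (map j : MvPolynomial (Fin (n + 1)) A0 →+* _) := by
      rw [mem_range_map_iff_coeffs_subset]
      intro a ha
      exact ⟨⟨a, Algebra.subset_adjoin (Finset.mem_coe.2 (hP (Finset.mem_coe.1 ha)))⟩, rfl⟩
    exact h1
  choose F0 hF0 using fun i => hlift (F i) (fun a ha => Finset.mem_union_left _
    (Finset.mem_biUnion.2 ⟨i, Finset.mem_univ _, ha⟩))
  choose G0 hG0 using fun l => hlift (G l) (fun a ha => Finset.mem_union_right _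
    (Finset.mem_biUnion.2 ⟨l, Finset.mem_univ _, ha⟩))
  have hhom : ∀ (P0 : MvPolynomial (Fin (n + 1)) A0) (d : ℕ), (map j P0).IsHomogeneous d →
      P0.IsHomogeneous d := by
    intro P0 d hd m hm
    apply hd
    rw [coeff_map]
    intro h0
    exact hm (hj (by rw [h0, map_zero]))
  have hF0' : ∀ i, ∃ d, (F0 i).IsHomogeneous d := fun i => by
    obtain ⟨d, hd⟩ := hF i
    exact ⟨d, hhom _ _ (by rw [hF0]; exact hd)⟩
  have hG0' : ∀ l, ∃ d, (G0 l).IsHomogeneous d := fun l => by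
    obtain ⟨d, hd⟩ := hG l
    exact ⟨d, hhom _ _ (by rw [hG0]; exact hd)⟩
  obtain ⟨τ, M, j1, j2, q, l₀, hτ, h1, h2, h3⟩ := fam_countable (s := s) (r := r) (e := e) j F0 G0
    hF0' hG0' (fun a ha => by
      obtain ⟨φ, h4, h5⟩ := hcon (j a) (fun h6 => ha (hj (by rw [h6, map_zero])))
      refine ⟨φ, h4, fun h6 => h5 ?_⟩
      have h7 : ∀ i, map (φ.comp j) (F0 i) = map φ (F i) := fun i => by rw [← map_map, hF0]
      have h8 : ∀ l, map (φ.comp j) (G0 l) = map φ (G l) := fun l => by rw [← map_map, hG0]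
      simp only [h7, h8] at h6
      exact h6)
  have h4 := comb (K0 := FractionRing A0) (K := FractionRing A) j hj τ hτ F0 G0 (by
    simp only [hF0, hG0]
    exact h)
  have hcz : CharZero M := charZero_of_injective_algebraMap (algebraMap ℂ M).injective
  obtain ⟨L, i1, i2, p, h5, h6, i', j', h7⟩ := uni_of (k := ℂ) (fun i => map τ (F0 i)) (map τ (G0 l₀))
    (fun i => by obtain ⟨d, hd⟩ := hF0' i; exact ⟨d, hd.map τ⟩)
    (by obtain ⟨d, hd⟩ := hG0' l₀; exact ⟨d, hd.map τ⟩) q h1 h2 h3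
  have hcL : CharZero L := charZero_of_injective_algebraMap (algebraMap ℂ L).injective
  apply h6
  rw [ev_poly, h4 L p h5 (nc_of h7) l₀, Polynomial.eval_zero]

end Pool.Agent.R393.UD
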