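import Pool.Agent.R393.UO.Trans

/-!
The transfer of rational curves from the limit to the terms of the sequence, with bounded degrees.
-/

set_option autoImplicit false

namespace Pool.Agent.R393.UD

open MvPolynomial Pool.Agent.R393.UO

theorem transfer2 {κ : Type} [Field κ] [IsAlgClosed κ] {Θ : (ℕ → ℂ) →+* ℂ}
    (hΘ : ∀ f : ℕ → ℂ, (∃ n, ∀ i, n ≤ i → f i = 0) → Θ f = 0)
    (θ : (ℕ → ℂ) →+* κ) (hθ : Function.Surjective θ) (jj : κ →+* ℂ) (hj : ∀ a, jj (θ a) = Θ a)
    {n : ℕ} {ι : Type} [Fintype ι] (Fl : ι → MvPolynomial (Fin (n + 1)) (ℕ → ℂ))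
    (Gl : MvPolynomial (Fin (n + 1)) (ℕ → ℂ)) (hF : ∀ i, ∃ e, (Fl i).IsHomogeneous e)
    (hG : ∃ e, Gl.IsHomogeneous e) {M : Type} [Field M] [Algebra ℂ M]
    (q : Fin (n + 1) → RatFunc M) (hq : ∀ i, aeval q (map Θ (Fl i)) = 0)
    (hqG : aeval q (map Θ Gl) ≠ 0)
    (hc : ∃ i l, q l ≠ 0 ∧ ∀ c : M, q i / q l ≠ algebraMap M (RatFunc M) c) :
    ∃ D : ℕ, ∀ T0 : ℕ, ∃ (T : ℕ) (p : Fin (n + 1) → Polynomial ℂ), T0 ≤ T ∧
      (∀ i, (p i).natDegree ≤ D) ∧
      (∀ i, aeval p (map (Pi.evalRingHom (fun _ : ℕ => ℂ) T) (Fl i)) = 0) ∧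
      aeval (fun i => (p i).eval 1) (map (Pi.evalRingHom (fun _ : ℕ => ℂ) T) Gl) ≠ 0 ∧
      ∃ i j, p i * Polynomial.C ((p j).eval 1) ≠ p j * Polynomial.C ((p i).eval 1) := by
  classical
  have hcz : CharZero M := charZero_of_injective_algebraMap (algebraMap ℂ M).injective
  let _ : Algebra κ M := ((algebraMap ℂ M).comp jj).toAlgebra
  have hal : algebraMap κ (RatFunc M) = (algebraMap ℂ (RatFunc M)).comp jj := by
    ext c
    rw [IsScalarTower.algebraMap_apply κ M (RatFunc M), RingHom.comp_apply,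
      IsScalarTower.algebraMap_apply ℂ M (RatFunc M)]
    rfl
  have hjθ : jj.comp θ = Θ := RingHom.ext hj
  have hae : ∀ F : MvPolynomial (Fin (n + 1)) (ℕ → ℂ),
      aeval q (map θ F) = aeval q (map Θ F) := by
    intro F
    rw [aeval_def, aeval_def, eval₂_map, eval₂_map, hal, RingHom.comp_assoc, hjθ]
  obtain ⟨L, i1, i2, p, h1, h2, h3⟩ := uni_of (k := κ) (fun i => map θ (Fl i)) (map θ Gl)
    (fun i => by obtain ⟨e, he⟩ := hF i; exact ⟨e, he.map θ⟩)
    (by obtain ⟨e, he⟩ := hG; exact ⟨e, he.map θ⟩) q (fun i => by rw [hae]; exact hq i)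
    (by rw [hae]; exact hqG) hc
  obtain ⟨p', h4, h5, i0, j0, h6⟩ := spec_closed (fun i => map θ (Fl i)) (map θ Gl) p h1 h2 h3
  choose b hb using fun (i : Fin (n + 1)) (m : ℕ) => hθ ((p' i).coeff m)
  let pl : Fin (n + 1) → Polynomial (ℕ → ℂ) := fun i =>
    ∑ m ∈ Finset.range ((p' i).natDegree + 1), Polynomial.C (b i m) * Polynomial.X ^ m
  have hpl : ∀ i, (pl i).map θ = p' i := by
    intro i
    simp only [pl]
    rw [Polynomial.map_sum]
    conv_rhs => rw [(p' i).as_sum_range_C_mul_X_pow]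
    refine Finset.sum_congr rfl fun m _ => ?_
    rw [Polynomial.map_mul, Polynomial.map_C, Polynomial.map_pow, Polynomial.map_X, hb]
  have hpd : ∀ i, (pl i).natDegree ≤ ∑ i, (p' i).natDegree := by
    intro i
    have h7 : (pl i).natDegree ≤ (p' i).natDegree := by
      refine Polynomial.natDegree_sum_le_of_forall_le _ _ fun m hm => ?_
      refine (Polynomial.natDegree_C_mul_X_pow_le _ _).trans ?_
      have := Finset.mem_range.1 hm
      omega
    exact h7.trans (Finset.single_le_sum (f := fun i => (p' i).natDegree)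
      (fun _ _ => Nat.zero_le _) (Finset.mem_univ i))
  have hev1 : ∀ i, θ ((pl i).eval 1) = (p' i).eval 1 := by
    intro i
    rw [← hpl i, Polynomial.eval_one_map]
  set P : ι → Polynomial (ℕ → ℂ) := fun i => aeval pl (Fl i) with hP
  have hPθ : ∀ i, (P i).map θ = 0 := by
    intro i
    rw [hP]
    change (aeval pl (Fl i) : Polynomial (ℕ → ℂ)).map θ = 0
    rw [map_aevalP]
    have h7 : (fun i => (pl i).map θ) = p' := funext hpl
    rw [h7]
    exact h4 i
  set U : Polynomial (ℕ → ℂ) := pl i0 * Polynomial.C ((pl j0).eval 1) -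
    pl j0 * Polynomial.C ((pl i0).eval 1) with hU
  have hUθ : U.map θ ≠ 0 := by
    rw [hU, Polynomial.map_sub, Polynomial.map_mul, Polynomial.map_mul, Polynomial.map_C,
      Polynomial.map_C, hpl, hpl, hev1, hev1]
    exact sub_ne_zero.2 h6
  obtain ⟨m0, hm0⟩ : ∃ m, θ (U.coeff m) ≠ 0 := by
    by_contra hcon
    push Not at hcon
    apply hUθ
    ext m
    rw [Polynomial.coeff_map, hcon m, Polynomial.coeff_zero]
  set g : ℕ → ℂ := aeval (fun i => (pl i).eval 1) Gl with hg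
  have hgθ : θ g ≠ 0 := by
    rw [hg, map_aevalE]
    have h7 : (fun i => θ ((pl i).eval 1)) = fun i => (p' i).eval 1 := funext hev1
    rw [h7]
    exact h5
  refine ⟨∑ i, (p' i).natDegree, fun T0 => ?_⟩
  let ind : ℕ → ℂ := fun i => if T0 ≤ i then 1 else 0
  have hind : Θ ind = 1 := by
    have h7 : Θ (1 - ind) = 0 := hΘ _ ⟨T0, fun i hi => by
      change (1 : ℂ) - (if T0 ≤ i then 1 else 0) = 0
      rw [if_pos hi, sub_self]⟩
    rw [map_sub, map_one] at h7
    exact (sub_eq_zero.1 h7).symm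
  have hu : Θ (U.coeff m0 * g * ind) ≠ 0 := by
    rw [map_mul, hind, mul_one, ← hj, map_mul, map_mul]
    exact mul_ne_zero ((map_ne_zero jj).2 hm0) ((map_ne_zero jj).2 hgθ)
  obtain ⟨T, hT1, hT2⟩ := los (Θ := Θ) (J := Σ i : ι, (P i).support)
    (fun x => (P x.1).coeff x.2) (by
      rintro ⟨i, m, hm⟩
      have h7 := congrArg (fun Q : Polynomial κ => Q.coeff m) (hPθ i)
      simp only [Polynomial.coeff_map, Polynomial.coeff_zero] at h7
      rw [← hj, h7, map_zero]) (U.coeff m0 * g * ind) hu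
  have hT3 : ind T ≠ 0 := right_ne_zero_of_mul hT2
  have hT0 : T0 ≤ T := by
    by_contra hcon
    apply hT3
    change (if T0 ≤ T then (1 : ℂ) else 0) = 0
    rw [if_neg hcon]
  replace hT2 : (U.coeff m0 * g) T ≠ 0 := left_ne_zero_of_mul hT2
  let ev : (ℕ → ℂ) →+* ℂ := Pi.evalRingHom (fun _ : ℕ => ℂ) T
  have hevT : ∀ i, ev ((pl i).eval 1) = ((pl i).map ev).eval 1 := by
    intro i
    rw [Polynomial.eval_one_map]
  refine ⟨T, fun i => (pl i).map ev, hT0, fun i => Polynomial.natDegree_map_le.trans (hpd i),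
    fun i => ?_, ?_, i0, j0, ?_⟩
  · rw [← map_aevalP]
    ext m
    rw [Polynomial.coeff_map, Polynomial.coeff_zero]
    by_cases hm : m ∈ (P i).support
    · exact hT1 ⟨i, m, hm⟩
    · have h8 := Polynomial.notMem_support_iff.1 hm
      change ((P i).coeff m) T = 0
      rw [h8]
      rfl
  · intro h8
    apply right_ne_zero_of_mul hT2
    have h9 := map_aevalE ev (fun i => (pl i).eval 1) Gl
    have h10 : (fun i => ev ((pl i).eval 1)) = fun i => ((pl i).map ev).eval 1 := funext hevT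
    rw [h10] at h9
    change ev g = 0
    rw [hg, h9]
    exact h8
  · intro h8
    apply left_ne_zero_of_mul hT2
    have h9 : U.map ev = 0 := by
      rw [hU, Polynomial.map_sub, Polynomial.map_mul, Polynomial.map_mul, Polynomial.map_C,
        Polynomial.map_C, hevT, hevT]
      exact sub_eq_zero.2 h8
    have h10 := congrArg (fun Q : Polynomial ℂ => Q.coeff m0) h9
    simp only [Polynomial.coeff_map, Polynomial.coeff_zero] at h10
    exact h10

end Pool.Agent.R393.UD
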