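import Pool.Agent.R393.SC.Fin
import Pool.Agent.R393.UD.Trans

/-!
The limit of a sequence of entire curves of bounded complexity on varying projective varieties.
-/

set_option autoImplicit false

namespace Pool.Agent.R393.UD

open MvPolynomial Pool.Agent.Y377.ST Pool.Agent.Y377.IL Pool.Agent.Y377.EL Pool.Agent.H533R3.SL
open Pool.Agent.R393.SC

variable {s r e n : ℕ}

/-- **The limit argument for entire curves on varying varieties.** -/
theorem limE {A : Type} [CommRing A] (φ : A →+* (ℕ → ℂ)) {ι κ : Type} [Fintype κ]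
    (F : ι → MvPolynomial (Fin (n + 1)) A) (G : κ → MvPolynomial (Fin (n + 1)) A)
    (hF : ∀ i, ∃ d, (F i).IsHomogeneous d) (hG : ∀ l, ∃ d, (G l).IsHomogeneous d)
    (x : ℕ → ℂ → Fin (n + 1) → ℂ) (hx : ∀ T, CurveVec s r e (x T))
    (hX : ∀ T z i, aeval (x T z) (map ((Pi.evalRingHom (fun _ : ℕ => ℂ) T).comp φ) (F i)) = 0)
    (hnc : ∀ T, ∃ z w i j, x T z i * x T w j ≠ x T z j * x T w i)
    (hGne : ∀ T, ∃ z l,
      aeval (x T z) (map ((Pi.evalRingHom (fun _ : ℕ => ℂ) T).comp φ) (G l)) ≠ 0)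
    (Θ : (ℕ → ℂ) →+* ℂ) (hΘ : ∀ f : ℕ → ℂ, (∃ n, ∀ i, n ≤ i → f i = 0) → Θ f = 0) :
    ∃ (M : Type) (_ : Field M) (_ : Algebra ℂ M) (q : Fin (n + 1) → RatFunc M) (l₀ : κ),
      (∀ i, aeval q (map (Θ.comp φ) (F i)) = 0) ∧ aeval q (map (Θ.comp φ) (G l₀)) ≠ 0 ∧
      ∃ i l, q l ≠ 0 ∧ ∀ c : M, q i / q l ≠ algebraMap M (RatFunc M) c := by
  classical
  choose z0 lz hz0 using hGne
  choose X Y hXY c hc using hx
  -- the coordinates as entire functions
  let V : ℕ → Ix s r → Ent := fun i => ent (XE (hXY i)) (YE (hXY i))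
  let ξ : ℕ → Fin (n + 1) → Ent := fun i j => pev (fun m => algebraMap ℂ Ent (c i j m)) (V i)
  have hξ : ∀ i j z, (ξ i j : ℂ → ℂ) z = x i z j := by
    intro i j z
    rw [hc i j z, ← evE_apply]
    change evE z (pev (fun m => algebraMap ℂ Ent (c i j m)) (V i)) = _
    rw [map_pev]
    have h1 : (fun v => evE z (V i v)) = entries (X i) (Y i) z := funext fun v => evE_ent (hXY i) z v
    rw [h1]
    rfl
  -- values of polynomials as entire functions
  let σ : ℕ → A →+* ℂ := fun i => (Pi.evalRingHom (fun _ : ℕ => ℂ) i).comp φ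
  let gE : ℕ → MvPolynomial (Fin (n + 1)) A → Ent := fun i G =>
    eval₂ ((algebraMap ℂ Ent).comp (σ i)) (ξ i) G
  have hgE : ∀ i G z, (gE i G : ℂ → ℂ) z = aeval (x i z) (map (σ i) G) := by
    intro i G z
    rw [← evE_apply, aeval_def, eval₂_map]
    have h1 := eval₂_comp_left (evE z) ((algebraMap ℂ Ent).comp (σ i)) (ξ i) G
    have h2 : (evE z).comp ((algebraMap ℂ Ent).comp (σ i)) =
        (algebraMap ℂ ℂ).comp (σ i) := RingHom.ext fun a => rfl
    have h3 : (evE z) ∘ (ξ i) = x i z := funext fun j => hξ i j z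
    rw [h2, h3] at h1
    exact h1
  have hcen : ∀ i, ∃ (w : ℂ) (a b : Fin (n + 1)), (gE i (G (lz i)) : ℂ → ℂ) w ≠ 0 ∧
      (wro (ξ i a) (ξ i b) : ℂ → ℂ) w ≠ 0 := by
    intro i
    refine exists_centre (ξ i) ?_ fun h0 => ?_
    · obtain ⟨z, w, a, b, h1⟩ := hnc i
      exact ⟨z, w, a, b, by rw [hξ, hξ, hξ, hξ]; exact h1⟩
    · apply hz0 i
      change aeval (x i (z0 i)) (map (σ i) (G (lz i))) = 0
      rw [← hgE i (G (lz i)) (z0 i), h0]
      rfl
  choose w a b hw1 hw2 using hcen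
  obtain ⟨D, hD, hCst⟩ := Pool.Agent.Y884.IL.t_FRC
  set Ψ := psi Θ w with hΨ
  have hΨD : ∀ f, D (Ψ f) = Ψ fun i => dE (f i) := fun f => psi_der Θ hD w f
  have hΨc : ∀ c : ℕ → ℂ, Ψ (fun i => algebraMap ℂ Ent (c i)) = algebraMap ℂ KK (Θ c) := fun c =>
    psi_const Θ w c
  let σs : A →+* ℂ := Θ.comp φ
  let X' : Fin s → Matrix (Fin r) (Fin r) KK := fun l => Matrix.of fun a b => Ψ fun i => XE (hXY i) l a b
  let Y' : Fin s → Matrix (Fin r) (Fin r) KK := fun l => Matrix.of fun a b => Ψ fun i => YE (hXY i) l a b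
  have hV' : ∀ v, ent X' Y' v = Ψ fun i => V i v := by
    intro v
    unfold ent
    split_ifs with hv
    · change Ψ (fun i => XE (hXY i) v.1 v.2.2.1 v.2.2.2) = _
      congr 1
      funext i
      change _ = ent (XE (hXY i)) (YE (hXY i)) v
      unfold ent
      rw [if_pos hv]
    · change Ψ (fun i => YE (hXY i) v.1 v.2.2.1 v.2.2.2) = _
      congr 1
      funext i
      change _ = ent (XE (hXY i)) (YE (hXY i)) v
      unfold ent
      rw [if_neg hv]
  have hinv' : ∀ l, X' l * Y' l = 1 := by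
    intro l
    ext a b
    rw [Matrix.mul_apply]
    change ∑ j, Ψ (fun i => XE (hXY i) l a j) * Ψ (fun i => YE (hXY i) l j b) = _
    have h1 : ∑ j, Ψ (fun i => XE (hXY i) l a j) * Ψ (fun i => YE (hXY i) l j b) =
        Ψ (fun i => (XE (hXY i) l * YE (hXY i) l) a b) := by
      have h2 : (fun i => (XE (hXY i) l * YE (hXY i) l) a b) =
          ∑ j, (fun i => XE (hXY i) l a j) * (fun i => YE (hXY i) l j b) := by
        funext i
        rw [Matrix.mul_apply, Finset.sum_apply]
        rfl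
      rw [h2, map_sum]
      exact Finset.sum_congr rfl fun j _ => (map_mul Ψ _ _).symm
    rw [h1]
    have h3 : (fun i => (XE (hXY i) l * YE (hXY i) l) a b) =
        fun _ => (1 : Matrix (Fin r) (Fin r) Ent) a b := funext fun i => by rw [inv_E]
    rw [h3]
    by_cases hab : a = b
    · subst hab
      simp only [Matrix.one_apply_eq]
      exact map_one Ψ
    · simp only [Matrix.one_apply_ne hab]
      exact map_zero Ψ
  choose C hC' using fun i => (hXY i).ode
  have hode' : ∀ l a b, D (X' l a b) =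
      ∑ k, pev (fun m => algebraMap ℂ KK (Θ fun i => C i l a k m)) (before l (ent X' Y')) *
        X' l k b := by
    intro l a b
    change D (Ψ fun i => XE (hXY i) l a b) = _
    rw [hΨD]
    have h1 : (fun i => dE (XE (hXY i) l a b)) = ∑ k,
        pev (fun m i => algebraMap ℂ Ent (C i l a k m)) (before l fun v i => V i v) *
          (fun i => XE (hXY i) l k b) := by
      funext i
      rw [ode_E (hXY i) l (hC' i l) a b, Finset.sum_apply]
      refine Finset.sum_congr rfl fun k _ => ?_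
      rw [Pi.mul_apply, pev_apply]
      congr 2
      funext v
      exact before_map (Pi.evalRingHom (fun _ : ℕ => Ent) i) l (fun v i => V i v) v
    rw [h1, map_sum]
    refine Finset.sum_congr rfl fun k _ => ?_
    rw [map_mul, map_pev]
    congr 1
    have h2 : (fun m => Ψ fun i => algebraMap ℂ Ent (C i l a k m)) =
        fun m => algebraMap ℂ KK (Θ fun i => C i l a k m) := funext fun m => hΨc _
    have h3 : (fun v => Ψ (before l (fun v i => V i v) v)) = before l (ent X' Y') := by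
      funext v
      rw [← before_map Ψ l (fun v i => V i v) v]
      congr 1
      funext v'
      exact (hV' v').symm
    rw [h2, h3]
  obtain ⟨R, hR, hmem⟩ := exists_tow X' Y' hinv' (fun l a k m => Θ fun i => C i l a k m) hode'
  let x' : Fin (n + 1) → KK := fun j => Ψ fun i => ξ i j
  have hx' : ∀ j, x' j ∈ R := by
    intro j
    have h1 : x' j = pev (fun m => algebraMap ℂ KK (Θ fun i => c i j m)) (ent X' Y') := by
      change Ψ (fun i => pev (fun m => algebraMap ℂ Ent (c i j m)) (V i)) = _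
      have h2 : (fun i => pev (fun m => algebraMap ℂ Ent (c i j m)) (V i)) =
          pev (fun m i => algebraMap ℂ Ent (c i j m)) (fun v i => V i v) := by
        funext i
        rw [pev_apply]
      rw [h2, map_pev]
      congr 1
      · funext m
        exact hΨc _
      · funext v
        exact (hV' v).symm
    rw [h1]
    exact pev_in R (fun m => R.algebraMap_mem _) hmem
  have hval : ∀ G : MvPolynomial (Fin (n + 1)) A,
      aeval x' (map σs G) = Ψ fun i => gE i G := by
    intro G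
    rw [aeval_def, eval₂_map]
    let ρ : A →+* (ℕ → Ent) := RingHom.pi fun i => (algebraMap ℂ Ent).comp (σ i)
    have h1 := eval₂_comp_left Ψ ρ (fun j i => ξ i j) G
    have h2 : Ψ.comp ρ = (algebraMap ℂ KK).comp σs := RingHom.ext fun a => hΨc fun i => σ i a
    have h3 : eval₂ ρ (fun j i => ξ i j) G = fun i => gE i G := by
      funext i
      exact eval₂_comp_left (Pi.evalRingHom (fun _ : ℕ => Ent) i) ρ (fun j i => ξ i j) G
    rw [h2, h3] at h1
    exact h1.symm
  have hzero : ∀ i, aeval x' (map σs (F i)) = 0 := by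
    intro i
    rw [hval]
    have h1 : (fun T => gE T (F i)) = 0 := funext fun T => Subtype.ext (funext fun z => by
      rw [hgE]
      exact hX T z i)
    rw [h1, map_zero]
  obtain ⟨l₀, hl₀⟩ := psi_ne Θ hΘ w (fun (l : κ) i => gE i (G l)) 0
    (fun i _ => ⟨lz i, hw1 i⟩)
  have hnz : aeval x' (map σs (G l₀)) ≠ 0 := by
    rw [hval]
    exact hl₀
  -- the limit is not constant
  obtain ⟨p, hp⟩ := psi_ne Θ hΘ w (fun (p : Fin (n + 1) × Fin (n + 1)) i => wro (ξ i p.1) (ξ i p.2)) 0
    (fun i _ => ⟨(a i, b i), hw2 i⟩)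
  have hwr : D (x' p.1) * x' p.2 - x' p.1 * D (x' p.2) ≠ 0 := by
    intro h0
    apply hp
    rw [← h0]
    change Ψ (fun i => wro (ξ i p.1) (ξ i p.2)) = D (Ψ fun i => ξ i p.1) * Ψ (fun i => ξ i p.2) -
      Ψ (fun i => ξ i p.1) * D (Ψ fun i => ξ i p.2)
    rw [hΨD, hΨD, ← map_mul, ← map_mul, ← map_sub]
    rfl
  obtain ⟨l, hl⟩ : ∃ l, x' l ≠ 0 := by
    by_contra hcon
    push Not at hcon
    apply hwr
    rw [hcon p.1, hcon p.2, mul_zero, zero_mul, sub_zero]
  have hFam : ∀ t : Finset KK, (∀ z ∈ t, ∃ j, z = x' j / x' l) → (∀ j, x' j / x' l ∈ t) →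
      RatFam R t := by
    intro t ht1 ht2
    refine hyp.main hCst (goodB_bot D) hR (fun z hz => ?_) ?_
    · obtain ⟨j, rfl⟩ := ht1 z hz
      exact fracs_mem (hx' j) (hx' l)
    · by_contra hcon
      push Not at hcon
      apply hwr
      have h1 : ∀ j, ∃ c : ℂ, x' j = algebraMap ℂ KK c * x' l := by
        intro j
        obtain ⟨c, hc⟩ := const_of_alg (hcon (x' j / x' l) (ht2 j))
        exact ⟨c, by rwa [div_eq_iff hl] at hc⟩
      obtain ⟨c1, hc1⟩ := h1 p.1
      obtain ⟨c2, hc2⟩ := h1 p.2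
      rw [hc1, hc2, D.leibniz, D.leibniz, D.map_algebraMap, D.map_algebraMap]
      simp only [smul_eq_mul, mul_zero, add_zero]
      ring
  obtain ⟨M, j1, j2, q, hq1, hq2, hq3⟩ := rat_curve hl hFam
  refine ⟨M, j1, j2, q, l₀, fun i => ?_, ?_, ?_⟩
  · obtain ⟨d, hd⟩ := hF i
    rw [hq1 _ d (hd.map σs)]
    exact hzero i
  · obtain ⟨d, hd⟩ := hG l₀
    rw [Ne, hq1 _ d (hd.map σs)]
    exact hnz
  · obtain ⟨i, hi⟩ := hq3
    exact ⟨i, l, hq2, hi⟩

end Pool.Agent.R393.UD
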